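import Mathlib

set_option autoImplicit false

namespace Pool.Agent.Results.MP_f57d9c_nt.Residue

open Finset Matrix

/-- The determinant D_p(δ₁, δ₂); rows and columns are indexed by 0, …, (p-1)/2. -/
def D (p : ℕ) [Fact p.Prime] (δ₁ δ₂ : ℤ) : ℤ :=
  Matrix.det (Matrix.of fun j k : Fin ((p - 1) / 2 + 1) =>
    legendreSym p ((j : ℤ) + k) + legendreSym p ((j : ℤ) - k) +
      δ₁ * legendreSym p ((j : ℤ) ^ 2 + δ₂ * (k : ℤ) ^ 2))

theorem sum_parity {R : Type} [AddCommMonoid R] (f : ℕ → R) (h : ℕ) :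
    ∑ m ∈ range (2 * h + 1), f m = ∑ i ∈ range (h + 1), f (2 * i) + ∑ i ∈ range h, f (2 * i + 1) := by
  induction h with
  | zero => simp
  | succ h ih =>
    rw [show 2 * (h + 1) + 1 = 2 * h + 1 + 1 + 1 by ring, sum_range_succ, sum_range_succ, ih,
      sum_range_succ _ (h + 1), sum_range_succ (fun i => f (2 * i + 1)),
      show 2 * h + 1 + 1 = 2 * (h + 1) by ring]
    abel

theorem even_part {R : Type} [CommRing R] (x y : R) (h : ℕ) :
    (x + y) ^ (2 * h) + (x - y) ^ (2 * h) =
      ∑ i ∈ range (h + 1), 2 * ((2 * h).choose (2 * i) : R) * (x ^ 2) ^ i * (y ^ 2) ^ (h - i) := by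
  rw [sub_eq_add_neg, add_pow, add_pow, ← sum_add_distrib, sum_parity,
    sum_eq_zero (s := range h), add_zero]
  · refine sum_congr rfl fun i hi => ?_
    rw [show 2 * h - 2 * i = 2 * (h - i) by omega, Even.neg_pow (by simp), pow_mul, pow_mul]
    ring
  · intro i hi
    have := mem_range.1 hi
    rw [show 2 * h - (2 * i + 1) = 2 * (h - i - 1) + 1 by omega, Odd.neg_pow (by simp)]
    ring

theorem prod_choose (h : ℕ) : ∏ i ∈ range (2 * h + 1), (2 * h).choose i =
    (∏ i ∈ range h, (2 * h).choose i) ^ 2 * (2 * h).choose h := by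
  rw [show 2 * h + 1 = h + 1 + h by ring, prod_range_add, prod_range_succ, sq, mul_right_comm]
  congr 2
  rw [← prod_range_reflect (fun x => (2 * h).choose (h + 1 + x)) h]
  refine prod_congr rfl fun i hi => ?_
  have := mem_range.1 hi
  rw [← Nat.choose_symm (by omega)]
  congr 1
  omega

theorem fact_sq (p h : ℕ) [Fact p.Prime] (hp : p = 4 * h + 1) :
    (((2 * h).factorial : ℕ) : ZMod p) ^ 2 = -1 := by
  rw [← ZMod.wilsons_lemma, show p - 1 = 2 * h + 2 * h by omega, ← prod_range_add_one_eq_factorial,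
    ← prod_range_add_one_eq_factorial, prod_range_add, ← prod_range_reflect (fun x => 2 * h + x + 1), sq]
  push_cast
  congr 1
  have e : ∏ x ∈ range (2 * h), ((x : ZMod p) + 1) = ∏ x ∈ range (2 * h), (-((x : ZMod p) + 1)) := by
    rw [prod_neg, card_range, Even.neg_one_pow (even_two_mul h), one_mul]
  rw [e]
  refine prod_congr rfl fun i hi => ?_
  have := mem_range.1 hi
  have h1 : ((4 * h + 1 : ℕ) : ZMod p) = 0 := by rw [← hp]; simp
  rw [Nat.sub_sub, Nat.cast_sub (by omega)]
  push_cast at h1 ⊢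
  linear_combination -h1

theorem result (p : ℕ) [Fact p.Prime] (hp : p % 4 = 1) (δ₁ δ₂ : ℤ) (h₁ : δ₁ = 1 ∨ δ₁ = -1)
    (h₂ : δ₂ = 1 ∨ δ₂ = -1) :
    ¬ (p : ℤ) ∣ 2 * D p δ₁ δ₂ ∧ ∃ y : ℤ, 2 * D p δ₁ δ₂ ≡ y ^ 2 [ZMOD p] := by
  obtain ⟨h, hh⟩ : ∃ h, p = 4 * h + 1 := ⟨p / 4, by omega⟩
  have hn : (p - 1) / 2 = 2 * h := by omega
  have hn' : p / 2 = 2 * h := by omega
  have hF := fact_sq p h hh
  let V : Matrix (Fin (2 * h + 1)) (Fin (2 * h + 1)) (ZMod p) := vandermonde fun j => ((j : ℕ) : ZMod p) ^ 2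
  let C : Matrix (Fin (2 * h + 1)) (Fin (2 * h + 1)) (ZMod p) := Matrix.of fun i i' =>
    (if i'.val = h - i.val ∧ i.val ≤ h then 2 * ((2 * h).choose (2 * i) : ZMod p) else 0) +
      if i' = i.rev then (δ₁ : ZMod p) * δ₂ ^ (2 * h - i.val) * ((2 * h).choose i : ZMod p) else 0
  have hD : (D p δ₁ δ₂ : ZMod p) = (V * C * Vᵀ).det := by
    unfold D
    rw [hn, Int.cast_det]
    congr 1
    ext j k
    simp only [map_apply, of_apply, Int.cast_add, Int.cast_mul, legendreSym.eq_pow, hn', mul_apply, V, C,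
      vandermonde_apply, transpose_apply, mul_add, add_mul, sum_add_distrib, sum_mul]
    push_cast
    congr 1
    · rw [even_part, sum_comm, Fin.sum_univ_eq_sum_range (fun i => ∑ i' : Fin (2 * h + 1),
        (((j : ℕ) : ZMod p) ^ 2) ^ i * (if i'.val = h - i ∧ i ≤ h then 2 * ((2 * h).choose (2 * i) : ZMod p)
          else 0) * (((k : ℕ) : ZMod p) ^ 2) ^ i'.val),
        ← sum_subset (range_subset_range.2 (show h + 1 ≤ 2 * h + 1 by omega))]
      · refine sum_congr rfl fun i hi => ?_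
        have := mem_range.1 hi
        rw [sum_eq_single ⟨h - i, by omega⟩ (fun b _ hb => by
          rw [if_neg (fun h' => hb (Fin.ext h'.1))]; simp) (by simp), if_pos ⟨rfl, by omega⟩]
        ring
      · intro i _ hi
        have : ¬ i ≤ h := fun h' => hi (mem_range.2 (by omega))
        simp [this]
    · rw [add_pow, sum_comm, mul_sum, ← Fin.sum_univ_eq_sum_range (fun i => (δ₁ : ZMod p) *
        ((((j : ℕ) : ZMod p) ^ 2) ^ i * (δ₂ * ((k : ℕ) : ZMod p) ^ 2) ^ (2 * h - i) * ((2 * h).choose i)))]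
      refine sum_congr rfl fun i _ => ?_
      rw [sum_eq_single i.rev (fun b _ hb => by simp [hb]) (by simp), if_pos rfl, Fin.val_rev,
        show 2 * h + 1 - (i.val + 1) = 2 * h - i.val by omega]
      ring
  have hV : V.det ≠ 0 := by
    rw [det_vandermonde_ne_zero_iff]
    intro a b hab
    have ha := a.2
    have hb := b.2
    rcases sq_eq_sq_iff_eq_or_eq_neg.1 hab with h3 | h3
    · exact Fin.ext (Nat.ModEq.eq_of_lt_of_lt ((ZMod.natCast_eq_natCast_iff _ _ _).1 h3)
        (by omega) (by omega))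
    · have h4 : ((a.val + b.val : ℕ) : ZMod p) = 0 := by push_cast; rw [h3]; ring
      have := Nat.eq_zero_of_dvd_of_lt ((ZMod.natCast_eq_zero_iff _ _).1 h4) (by omega)
      exact Fin.ext (by omega)
  have hpos : 0 < h := by
    have := (Fact.out : p.Prime).one_lt
    omega
  have hC : ∃ ε : ZMod p, (ε = 1 ∨ ε = -1) ∧
      C.det = ε * ((∏ i ∈ range (2 * h + 1), (2 * h).choose i : ℕ) : ZMod p) := by
    have h3 := det_permute' Fin.revPerm C
    rw [det_of_upperTriangular] at h3
    swap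
    · intro i j hij
      have h4 : j.val < i.val := hij
      have := i.2
      simp only [submatrix_apply, id, C, of_apply, Fin.revPerm_apply, Fin.val_rev, Fin.rev_inj]
      rw [if_neg (by omega), if_neg (fun h' => by rw [h'] at h4; omega), add_zero]
    have h4 : ∀ i : Fin (2 * h + 1), (C.submatrix id Fin.revPerm) i i =
        (δ₁ * δ₂ ^ (2 * h - i.val) : ZMod p) * ((2 * h).choose i : ZMod p) := by
      intro i
      simp only [submatrix_apply, id, C, of_apply, Fin.revPerm_apply, Fin.val_rev]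
      rw [if_neg (by omega), if_pos trivial, zero_add]
    rw [prod_congr rfl fun i _ => h4 i, prod_mul_distrib,
      Fin.prod_univ_eq_prod_range (fun i => ((2 * h).choose i : ZMod p))] at h3
    have h5 : ((Equiv.Perm.sign (Fin.revPerm (n := 2 * h + 1)) : ℤ) : ZMod p) ^ 2 = 1 := by
      rcases Int.units_eq_one_or (Equiv.Perm.sign (Fin.revPerm (n := 2 * h + 1))) with h | h <;> simp [h]
    refine ⟨((Equiv.Perm.sign (Fin.revPerm (n := 2 * h + 1)) : ℤ) : ZMod p) *
      ∏ i : Fin (2 * h + 1), (δ₁ * δ₂ ^ (2 * h - i.val) : ZMod p), ?_, ?_⟩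
    · rw [← sq_eq_one_iff, mul_pow, h5, one_mul, ← prod_pow]
      refine prod_eq_one fun i _ => ?_
      rw [mul_pow, ← pow_mul, mul_comm _ 2, pow_mul]
      rcases h₁ with rfl | rfl <;> rcases h₂ with rfl | rfl <;> simp
    · push_cast
      rw [mul_assoc, h3, ← mul_assoc, ← sq, h5, one_mul]
  obtain ⟨ε, hε, hC⟩ := hC
  have hne : ∀ m, m < p → ((m.factorial : ℕ) : ZMod p) ≠ 0 := fun m hm h0 =>
    absurd (((Fact.out : p.Prime).dvd_factorial).1 ((ZMod.natCast_eq_zero_iff _ _).1 h0)) (by omega)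
  have hch : ∀ i, i ≤ 2 * h → (((2 * h).choose i : ℕ) : ZMod p) ≠ 0 := by
    intro i hi h0
    apply hne (2 * h) (by omega)
    rw [← Nat.choose_mul_factorial_mul_factorial hi]
    push_cast
    rw [h0, zero_mul, zero_mul]
  have h2 : (2 : ZMod p) ≠ 0 := by
    have := hne 2 (by omega)
    simpa using this
  have hmid : (((2 * h).choose h : ℕ) : ZMod p) * h.factorial * h.factorial = (2 * h).factorial := by
    have := Nat.choose_mul_factorial_mul_factorial (show h ≤ 2 * h by omega)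
    rw [show 2 * h - h = h by omega] at this
    exact_mod_cast congrArg (Nat.cast : ℕ → ZMod p) this
  have hval : ((2 * D p δ₁ δ₂ : ℤ) : ZMod p) = ε * (2 * ((2 * h).choose h : ℕ)) *
      (V.det * (∏ i ∈ range h, (2 * h).choose i : ℕ)) ^ 2 := by
    rw [Int.cast_mul, hD, det_mul, det_mul, det_transpose, hC, prod_choose]
    push_cast
    ring
  constructor
  · rw [← ZMod.intCast_zmod_eq_zero_iff_dvd, hval]
    refine mul_ne_zero (mul_ne_zero ?_ (mul_ne_zero h2 (hch h (by omega)))) (pow_ne_zero _ (mul_ne_zero hV ?_))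
    · rcases hε with rfl | rfl <;> simp
    · push_cast
      exact prod_ne_zero_iff.2 fun i hi => hch i (by have := mem_range.1 hi; omega)
  · have hsq : ∃ z : ZMod p, ε * (2 * ((2 * h).choose h : ℕ)) = z ^ 2 := by
      have hh0 := hne h (by omega)
      rcases hε with rfl | rfl
      · refine ⟨(1 + (2 * h).factorial) / h.factorial, ?_⟩
        field_simp
        linear_combination 2 * hmid - hF
      · refine ⟨(1 - (2 * h).factorial) / h.factorial, ?_⟩
        field_simp
        linear_combination -2 * hmid - hF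
    obtain ⟨z, hz⟩ := hsq
    obtain ⟨y, hy⟩ := ZMod.intCast_surjective
      (z * (V.det * ((∏ i ∈ range h, (2 * h).choose i : ℕ) : ZMod p)))
    refine ⟨y, (ZMod.intCast_eq_intCast_iff _ _ _).1 ?_⟩
    rw [hval, hz, Int.cast_pow, hy]
    ring

end Pool.Agent.Results.MP_f57d9c_nt.Residue
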